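import Pool.Agent.Helper17_AT10.Orb
import Pool.Agent.Helper62_AT3.LCJ

/-!
# Squad AT10, row PRM: every Brauer pair is below a conjugate of `(V, γ)` (author helper17)
-/

open scoped BigOperators

noncomputable section

namespace Pool.Agent.PP.T10.H17

open Pool.Agent.Helper51_AWC Pool.Agent.Helper79_WRA Pool.Agent.PP Pool.Agent.PP.KF
open Pool.Agent.PP.K9 Pool.Agent.PP.K9.H97 Pool.Agent.PP.H75 Pool.Agent.PP.T3 Pool.Agent.PP.T2
open Pool.Agent.PP.T8 (rs pw fv rd Ip Rv)

attribute [local instance] Ideal.Quotient.field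

section tools

variable {F G : Type} [Field F] [Group G] [Finite G]

theorem gd_of_ne {e : G → F} {P : Subgroup G} (h : br P e ≠ 0) : Gd e P := by
  by_contra hcon
  apply h
  funext g
  by_cases hg : g ∈ Subgroup.centralizer (P : Set G)
  · rw [br_in _ hg]
    by_contra hne
    exact hcon ⟨g, hg, hne⟩
  · rw [br_out _ hg]
    rfl

/-- the image of a central idempotent is a central idempotent of the normaliser -/
theorem ix_br_norm {ℓ : ℕ} (hF : GoodF ℓ F) {P : Subgroup G} (hP : IsPGroup ℓ P) {e : G → F}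
    (he : IsIdem e) : Ix (Subgroup.normalizer (P : Set G)) (br P e) := by
  refine mk_ix (fun x hx => br_out _ (fun h => hx (T2.H25.cent_le_norm P h))) ?_ ?_
  · intro x hx
    rw [cj_br hx, cj_isCl x he.1]
  · rw [← br_mulF H74.orb hF hP (fun p _ => cj_isCl p he.1) (fun p _ => cj_isCl p he.1), he.2]

/-- a block of the normaliser is the orbit sum of a block of the centraliser -/
theorem blk_os {ℓ : ℕ} [Fact ℓ.Prime] (hF : GoodF ℓ F) {P : Subgroup G} (hP : IsPGroup ℓ P)
    {f b : G → F} (hf : Bx (Subgroup.normalizer (P : Set G)) f)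
    (hb : Bx (Subgroup.centralizer (P : Set G)) b) (hne : mulF f b ≠ 0) :
    f = os (Subgroup.normalizer (P : Set G)) b ∧ mulF f b = b := by
  set N : Subgroup G := Subgroup.normalizer (P : Set G) with hN
  set C : Subgroup G := Subgroup.centralizer (P : Set G) with hC
  have hCN : C ≤ N := T2.H25.cent_le_norm P
  have hNC : N ≤ Subgroup.normalizer (C : Set G) := fun s hs => norm_cent hs
  have hfs : br P f = f :=
    T2.H32.supp_cent hF hP Subgroup.le_normalizer hCN (le_of_eq hN) hf.ix
  have hfC : Ix C f := by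
    refine mk_ix ?_ (fun x hx => hf.ix.inv (hCN hx)) hf.mul
    intro x hx
    rw [← hfs]
    exact br_out _ hx
  have hfb : mulF f b = b := by
    rcases hb.dich' hfC with h | h
    · rw [hfC.comm hb.ix, h]
    · exfalso
      apply hne
      rw [hfC.comm hb.ix, h]
  refine ⟨?_, hfb⟩
  have hoC := os_ix hNC hb
  have hoN : Ix N (os N b) :=
    mk_ix (fun x hx => hoC.supp x (fun h => hx (hCN h))) (fun x hx => cj_os hx b) hoC.mul
  have h1 : mulF f (os N b) = f := by
    rcases hf.dich' hoN with h | h
    · exact h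
    · exfalso
      apply hb.ne
      have h2 := os_mul_mem hNC hb (self_mem N b)
      rw [← hfb]
      conv_lhs => rw [← h2]
      rw [← mulF_assoc, h, mulF_zero_left]
  have h2 : mulF f (os N b) = os N b := by
    have := Fintype.ofFinite (cset N b)
    rw [os_eq, T2.H25.mulF_sum]
    refine Finset.sum_congr rfl fun d _ => ?_
    obtain ⟨d, n, hn, rfl⟩ := d
    change mulF f (cj n b) = cj n b
    have h3 := congrArg (cj n) hfb
    rw [cj_mulF, hf.ix.inv hn] at h3
    exact h3
  rw [← h1, h2]

end tools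

/-- PRM -/
theorem prm (fmg : K9.FmgStmt) (dun : K9.DunStmt) (orb : K9.OrbStmt) (prx : PrxStmt) :
    PrmStmt := by
  intro ℓ _ M _ hM G _ _ e V γ he hV hγ heγ P
  have hF : GoodF ℓ (FF M) := H50.fld ℓ Fact.out M hM
  induction P using WellFoundedGT.induction with
  | ind P ih =>
    intro hP b hb heb
    have hbre : br P e ≠ 0 := by
      intro h
      rw [h, mulF_zero_left] at heb
      exact hb.ne heb.symm
    have hgd := gd_of_ne hbre
    have hle := hV.mx P hP hgd
    rcases eq_or_lt_of_le hle with hcard | hlt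
    · -- the group is a conjugate of `V`
      obtain ⟨g₀, hg₀⟩ := (fmg ℓ M hM G e he V hV).1 P hP hgd
      have hPV : P = conjS g₀ V := by
        apply Subgroup.eq_of_le_of_card_ge hg₀
        rw [card_conjS, hcard]
      have hTp : Tp ℓ e P := ⟨hP, hgd, fun Q hQ hQg => by rw [hcard]; exact hV.mx Q hQ hQg⟩
      have hblk := (fmg ℓ M hM G e he P hTp).2.1.1
      have hγ' : Bx (Subgroup.centralizer (P : Set G)) (cj g₀ γ) := by
        have h1 : ∀ x, x ∈ Subgroup.centralizer (P : Set G) ↔
            g₀⁻¹ * x * g₀ ∈ Subgroup.centralizer (V : Set G) := by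
          intro x
          rw [hPV]
          exact T2.H25.cent_conjS.symm
        exact T3.H62.bx_cj h1 hγ
      have heγ' : mulF (br P e) (cj g₀ γ) = cj g₀ γ := by
        have h1 := congrArg (cj g₀) heγ
        rw [cj_mulF, T2.H25.cj_br_conj, cj_isCl g₀ he.1.1, ← hPV] at h1
        exact h1
      obtain ⟨n, hn, hnb⟩ := orb ℓ (FF M) hF G (Subgroup.normalizer (P : Set G))
        (Subgroup.centralizer (P : Set G)) (T2.H25.cent_le_norm P) (fun s hs => norm_cent hs)
        (br P e) (fun x hx => br_out _ hx) hblk (cj g₀ γ) b hγ'.supp hb.supp hγ'.blk hb.blk heγ' heb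
      obtain ⟨β, hβ, hβP⟩ := prx ℓ (FF M) hF G P hP b hb
      have hbn : b = cj (n⁻¹ * g₀) γ := by
        rw [← cj_cj]
        funext x
        rw [hnb x]
        unfold cj
        congr 1
        group
      have hPn : conjS (n⁻¹ * g₀) V = P := by
        rw [T2.H25.conjS_mul, ← hPV]
        exact T2.H25.conjS_norm (Subgroup.inv_mem _ hn)
      refine ⟨n⁻¹ * g₀, β, ?_, ?_, ?_, hβP⟩
      · rw [hPn]
        exact hβ
      · rw [hPn]
      · rw [hPn, hβP, hbn]
    · -- the block of the normaliser
      set N : Subgroup G := Subgroup.normalizer (P : Set G) with hN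
      obtain ⟨f, hf, hfne⟩ := exists_bx_one N hb.ne
      obtain ⟨hfo, hfb⟩ := blk_os hF hP hf hb hfne
      have heN := ix_br_norm hF hP he.1
      have hef : mulF (br P e) f = f := by
        rcases hf.dich' heN with h | h
        · rw [← hf.ix.comm heN, h]
        · exfalso
          apply hb.ne
          rw [← hfb]
          conv_lhs => rw [← heb]
          rw [← mulF_assoc, h, mulF_zero_left]
      obtain ⟨R', hR'p, hR'g, hR'lt⟩ := dun ℓ M hM G e he V hV P hP hlt (fun t : N => f t) hf.blk
        (by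
          rw [← mulF_res N (a := br P e) f heN.supp, hef])
      -- the subgroup of `G`
      set R : Subgroup G := R'.map N.subtype with hR
      have hRp : IsPGroup ℓ R := hR'p.map _
      have hRN : R ≤ N := by
        rintro x ⟨y, -, rfl⟩
        exact y.2
      have hPN : P ≤ N := Subgroup.le_normalizer
      have hPR : P < R := by
        obtain ⟨h1, h2⟩ := hR'lt
        refine lt_of_le_of_ne ?_ ?_
        · intro x hx
          exact ⟨⟨x, hPN hx⟩, h1 (Subgroup.mem_subgroupOf.2 hx), rfl⟩
        · intro h3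
          apply h2
          intro y hy
          have h4 : (y : G) ∈ R := ⟨y, hy, rfl⟩
          rw [← h3] at h4
          exact Subgroup.mem_subgroupOf.2 h4
      obtain ⟨g', hg', hfg'⟩ := hR'g
      have hgR : (g' : G) ∈ Subgroup.centralizer (R : Set G) := by
        rw [Subgroup.mem_centralizer_iff] at hg' ⊢
        rintro x ⟨y, hy, rfl⟩
        exact congrArg Subtype.val (hg' y hy)
      have hog : os N b (g' : G) ≠ 0 := by
        rw [← hfo]
        exact hfg'
      obtain ⟨d, ⟨n, hn, hd⟩, hdinv, hdg⟩ := os_fixed hF hRp hRN hgR hog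
      -- the conjugate of `R`
      set R₁ : Subgroup G := conjS n⁻¹ R with hR₁
      have hmem : ∀ x, x ∈ R₁ ↔ n * x * n⁻¹ ∈ R := by
        intro x
        rw [hR₁, mem_conjS, inv_inv]
      have hR₁p : IsPGroup ℓ R₁ := conjS_pgroup hRp
      have hR₁N : R₁ ≤ N := by
        intro x hx
        have h1 := hRN ((hmem x).1 hx)
        have h2 := N.mul_mem (N.mul_mem (N.inv_mem hn) h1) hn
        have h3 : n⁻¹ * (n * x * n⁻¹) * n = x := by group
        rwa [h3] at h2
      have hPR₁ : P < R₁ := by
        refine lt_of_le_of_ne ?_ ?_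
        · intro x hx
          rw [hmem]
          exact hPR.le ((Subgroup.mem_normalizer_iff.1 hn x).1 hx)
        · intro h1
          have h2 : Nat.card R₁ = Nat.card R := card_conjS _ _
          rw [← h1] at h2
          exact absurd (Subgroup.eq_of_le_of_card_ge hPR.le h2.symm.le) hPR.ne
      have hbinv : ∀ r ∈ R₁, cj r b = b := by
        intro r hr
        have h1 := hdinv _ ((hmem r).1 hr)
        rw [hd, cj_cj] at h1
        have h2 := congrArg (cj n⁻¹) h1
        rw [cj_inv_cj, cj_cj] at h2
        have h3 : n⁻¹ * (n * r * n⁻¹ * n) = r := by group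
        rw [h3] at h2
        exact h2
      have hbne : br R₁ b ≠ 0 := by
        intro h0
        apply hdg
        have h1 : n⁻¹ * (g' : G) * n ∈ Subgroup.centralizer (R₁ : Set G) := by
          rw [hR₁]
          have h2 := (T2.H25.cent_conjS (U := R) (g := n⁻¹) (x := n⁻¹ * (g' : G) * n)).1
          apply h2
          have h3 : (n⁻¹)⁻¹ * (n⁻¹ * (g' : G) * n) * n⁻¹ = g' := by group
          rw [h3]
          exact hgR
        have h2 : br R₁ b (n⁻¹ * (g' : G) * n) = b (n⁻¹ * (g' : G) * n) := br_in _ h1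
        rw [h0] at h2
        rw [hd]
        exact h2.symm
      have hbix := ix_br' hF hR₁p hPR₁.le hb.ix hbinv
      obtain ⟨b₁, hb₁, hbb₁, -⟩ := exists_bx hbix (a := br R₁ b) (by
        rw [hbix.mul]
        exact hbne)
      have heinv : ∀ r ∈ R₁, cj r (br P e) = br P e := fun r hr => heN.inv (hR₁N hr)
      have heb₁ : mulF (br R₁ e) b₁ = b₁ := by
        have h1 := br_mulF H74.orb hF hR₁p heinv hbinv
        rw [heb, T2.H25.br_br hPR₁.le] at h1
        conv_lhs => rw [← hbb₁, ← mulF_assoc, ← h1, hbb₁]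
      obtain ⟨g, β, hβ, hRg, hβV, hβR⟩ := ih R₁ hPR₁ hR₁p b₁ hb₁ heb₁
      refine ⟨g, β, hβ, hPR₁.le.trans hRg, hβV, ?_⟩
      have hst := hβ.st P R₁ hPR₁.le hRg hR₁N
      have hbr := hβ.br P R₁ hPR₁.le hRg hR₁N
      rw [hβR] at hbr
      have hbx := hβ.bx P (hPR₁.le.trans hRg)
      rcases hbx.dich hb with h | h
      · exact h
      · exfalso
        apply hb₁.ne
        have h1 := br_mulF H74.orb hF hR₁p hst hbinv
        rw [h, T2.H32.br_zero] at h1
        rw [← hbr]
        conv_lhs => rw [← hbb₁]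
        rw [← mulF_assoc, ← h1, mulF_zero_left]

end Pool.Agent.PP.T10.H17
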