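import Pool.Agent.AT10.Stmts3
import Pool.Agent.Helper32_AT2.FST
import Pool.Agent.Helper25_AT2.Bru
import Pool.Agent.Helper94_PP.Nch
import Pool.Agent.Helper24_K9.Duc

/-!
# Squad AT10: tools for Brauer pairs (orbit sums of blocks), author helper17
-/

open scoped BigOperators

noncomputable section

namespace Pool.Agent.PP.T10.H17

open Pool.Agent.Helper51_AWC Pool.Agent.Helper79_WRA Pool.Agent.PP Pool.Agent.PP.KF
open Pool.Agent.PP.K9 Pool.Agent.PP.K9.H97 Pool.Agent.PP.H75 Pool.Agent.PP.T3 Pool.Agent.PP.T2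
open Pool.Agent.PP.T8 (rs pw fv rd Ip Rv)

section group

variable {G : Type} [Group G]

theorem norm_cent {Q : Subgroup G} {s : G} (hs : s ∈ Subgroup.normalizer (Q : Set G)) :
    s ∈ Subgroup.normalizer ((Subgroup.centralizer (Q : Set G) : Subgroup G) : Set G) := by
  rw [Subgroup.mem_normalizer_iff]
  intro x
  have h1 := T2.H25.cent_conjS (U := Q) (g := s) (x := s * x * s⁻¹)
  rw [T2.H25.conjS_norm hs] at h1
  have h2 : s⁻¹ * (s * x * s⁻¹) * s = x := by group
  rw [h2] at h1
  exact h1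

theorem grow' [Finite G] {ℓ : ℕ} [Fact ℓ.Prime] {Q P : Subgroup G} (hP : IsPGroup ℓ P)
    (h : Q < P) : Q < P ⊓ Subgroup.normalizer (Q : Set G) := by
  obtain ⟨x, hxP, hxQ, hxN⟩ := H94.grow hP h
  refine lt_of_le_of_ne (le_inf h.le Subgroup.le_normalizer) ?_
  intro he
  apply hxQ
  rw [he]
  exact Subgroup.mem_inf.2 ⟨hxP, hxN⟩

end group

section tools

variable {F G : Type} [Field F] [Group G] [Finite G]

theorem mk_ix {X : Subgroup G} {a : G → F} (hs : ∀ x, x ∉ X → a x = 0)
    (hi : ∀ x ∈ X, cj x a = a) (hm : mulF a a = a) : Ix X a := by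
  refine ⟨hs, ?_, ?_⟩
  · intro x y
    exact (cj_eq_iff (y : G) a).1 (hi y y.2) x
  · rw [← mulF_res X a hs, hm]

theorem cj_br {Q : Subgroup G} {n : G} (hn : n ∈ Subgroup.normalizer (Q : Set G)) (a : G → F) :
    cj n (br Q a) = br Q (cj n a) := by
  rw [T2.H25.cj_br_conj, T2.H25.conjS_norm hn]

theorem cj_sub (n : G) (a b : G → F) : cj n (a - b) = cj n a - cj n b := rfl

theorem cj_dl_one (n : G) : cj n (dl F (1 : G)) = dl F (1 : G) := by
  funext x
  unfold cj dl
  by_cases h : x = 1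
  · rw [if_pos h, if_pos (by rw [h]; group)]
  · rw [if_neg h, if_neg]
    intro h2
    apply h
    have h3 : x = n * (n⁻¹ * x * n) * n⁻¹ := by group
    rw [h3, h2]
    group

theorem ix_one (X : Subgroup G) : Ix X (dl F (1 : G)) := by
  refine mk_ix ?_ (fun x _ => cj_dl_one x) (H46.one_mulF _)
  intro x hx
  unfold dl
  rw [if_neg]
  intro h
  apply hx
  rw [h]
  exact X.one_mem

theorem mulF_one (a : G → F) : mulF a (dl F (1 : G)) = a := by
  apply ma_injective
  rw [ma_mul, ma_dl, ← MonoidAlgebra.one_def, mul_one]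

theorem sub_mulF (a b c : G → F) : mulF (a - b) c = mulF a c - mulF b c := by
  apply ma_injective
  rw [ma_sub, ma_mul, ma_mul, ma_mul, ma_sub, sub_mul]

theorem mulF_sub (a b c : G → F) : mulF a (b - c) = mulF a b - mulF a c := by
  apply ma_injective
  rw [ma_sub, ma_mul, ma_mul, ma_mul, ma_sub, mul_sub]

theorem ix_one_sub {X : Subgroup G} {c : G → F} (hc : Ix X c) : Ix X (dl F (1 : G) - c) := by
  refine mk_ix ?_ ?_ ?_
  · intro x hx
    rw [Pi.sub_apply, (ix_one X).supp x hx, hc.supp x hx, sub_zero]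
  · intro x hx
    rw [cj_sub, cj_dl_one, hc.inv hx]
  · rw [sub_mulF, mulF_sub, mulF_sub, H46.one_mulF, H46.one_mulF, mulF_one, hc.mul, sub_self,
      sub_zero]

/-- an idempotent of `X` which does not annihilate `a` is over a block of `X` which does not
annihilate `a` -/
theorem exists_bx {X : Subgroup G} {E : G → F} (hE : Ix X E) {a : G → F} (h : mulF E a ≠ 0) :
    ∃ b, Bx X b ∧ mulF E b = b ∧ mulF b a ≠ 0 := by
  obtain ⟨b, hb, hb2, hb3⟩ := K9.H24.exists_blk (fun c : X → F => mulF (PP.ext0 X c) a)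
    (by
      have h0 : PP.ext0 X (0 : X → F) = 0 := by
        funext x
        by_cases hx : x ∈ X
        · rw [PP.ext0, dif_pos hx]; rfl
        · rw [PP.ext0, dif_neg hx]; rfl
      change mulF (PP.ext0 X (0 : X → F)) a = 0
      rw [h0, mulF_zero_left])
    (by
      intro c d
      change mulF (PP.ext0 X (c + d)) a = _
      rw [H46.ext0_add, T2.H25.add_mulF])
    hE.idem
    (by
      change mulF (PP.ext0 X (fun t : X => E t)) a ≠ 0
      rw [H46.ext0_restr hE.supp]
      exact h)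
  have hbx : (fun t : X => PP.ext0 X b t) = b := by
    funext t
    exact H46.ext0_of_mem b t.2
  refine ⟨PP.ext0 X b, ⟨fun x hx => H46.ext0_of_not_mem b hx, ?_⟩, ?_, hb3⟩
  · rw [hbx]
    exact hb
  · have hs : ∀ x, x ∉ X → PP.ext0 X b x = 0 := fun x hx => H46.ext0_of_not_mem b hx
    apply eq_of_res (mulF_supp X hE.supp hs) hs
    rw [mulF_res X _ hE.supp, hbx]
    exact hb2

theorem exists_bx_one (X : Subgroup G) {a : G → F} (h : a ≠ 0) : ∃ b, Bx X b ∧ mulF b a ≠ 0 := by
  obtain ⟨b, h1, -, h3⟩ := exists_bx (ix_one (F := F) X) (a := a) (by rw [H46.one_mulF]; exact h)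
  exact ⟨b, h1, h3⟩

/-- if only the block `c` does not annihilate `a` then `c a = a` -/
theorem all_of_unique {X : Subgroup G} {a c : G → F} (hc : Bx X c)
    (hu : ∀ d, Bx X d → mulF d a ≠ 0 → d = c) : mulF c a = a := by
  by_contra h
  obtain ⟨b, hb, hb2, hb3⟩ := exists_bx (ix_one_sub hc.ix) (a := a) (by
    rw [sub_mulF, H46.one_mulF]
    intro h'
    exact h (sub_eq_zero.1 h').symm)
  have h1 := hu b hb hb3
  rw [h1, sub_mulF, H46.one_mulF, hc.mul, sub_self] at hb2
  exact hc.ne hb2.symm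

/-- two blocks which fix a nonzero element are equal -/
theorem bx_uniq {X : Subgroup G} {a b c : G → F} (ha : a ≠ 0) (hb : Bx X b) (hc : Bx X c)
    (h1 : mulF a b = a) (h2 : mulF a c = a) : b = c := by
  rcases hb.dich hc with h | h
  · exact h
  · exfalso
    apply ha
    rw [← h2]
    conv_lhs => rw [← h1]
    rw [mulF_assoc, h, mulF_zero_right]

/-- the image of a central idempotent of `C(Q)` -/
theorem ix_br' {ℓ : ℕ} (hF : GoodF ℓ F) {Q S : Subgroup G} (hS : IsPGroup ℓ S) (hQS : Q ≤ S)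
    {a : G → F} (ha : Ix (Subgroup.centralizer (Q : Set G)) a) (hi : ∀ s ∈ S, cj s a = a) :
    Ix (Subgroup.centralizer (S : Set G)) (br S a) := by
  refine mk_ix (fun x hx => br_out _ hx) ?_ ?_
  · intro x hx
    rw [cj_br (T2.H25.cent_le_norm S hx), ha.inv (Subgroup.centralizer_le hQS hx)]
  · rw [← br_mulF H74.orb hF hS hi hi, ha.mul]

/-! ## Orbit sums -/

/-- the conjugates of `c` under `N` -/
def cset (N : Subgroup G) (c : G → F) : Set (G → F) := {d | ∃ n ∈ N, d = cj n c}

instance (N : Subgroup G) (c : G → F) : Finite (cset N c) := by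
  have h : cset N c ⊆ Set.range (fun n : G => cj n c) := by
    rintro d ⟨n, -, rfl⟩
    exact ⟨n, rfl⟩
  exact ((Set.finite_range _).subset h).to_subtype

/-- the sum of the conjugates -/
def os (N : Subgroup G) (c : G → F) : G → F := fun g => ∑ᶠ d : cset N c, d.1 g

theorem os_eq (N : Subgroup G) (c : G → F) [Fintype (cset N c)] :
    os N c = ∑ d : cset N c, d.1 := by
  funext g
  rw [Finset.sum_apply]
  exact finsum_eq_sum_of_fintype _

theorem self_mem (N : Subgroup G) (c : G → F) : c ∈ cset N c := ⟨1, N.one_mem, (cj_one c).symm⟩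

theorem cj_mem {N : Subgroup G} {c d : G → F} (hd : d ∈ cset N c) {n : G} (hn : n ∈ N) :
    cj n d ∈ cset N c := by
  obtain ⟨m, hm, rfl⟩ := hd
  exact ⟨n * m, N.mul_mem hn hm, cj_cj n m c⟩

/-- the permutation of the conjugates -/
def perm {N : Subgroup G} {n : G} (hn : n ∈ N) (c : G → F) : cset N c ≃ cset N c where
  toFun d := ⟨cj n d.1, cj_mem d.2 hn⟩
  invFun d := ⟨cj n⁻¹ d.1, cj_mem d.2 (N.inv_mem hn)⟩
  left_inv d := Subtype.ext (cj_inv_cj n d.1)
  right_inv d := Subtype.ext (cj_cj_inv n d.1)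

theorem cj_os {N : Subgroup G} {n : G} (hn : n ∈ N) (c : G → F) : cj n (os N c) = os N c := by
  have := Fintype.ofFinite (cset N c)
  rw [os_eq, T2.H25.cj_sum, ← Equiv.sum_comp (perm hn c) (fun d : cset N c => d.1)]
  rfl

section bx

variable {X N : Subgroup G} {c : G → F}

theorem bx_mem (hN : N ≤ Subgroup.normalizer (X : Set G)) (hc : Bx X c) {d : G → F}
    (hd : d ∈ cset N c) : Bx X d := by
  obtain ⟨n, hn, rfl⟩ := hd
  exact hc.cj (hN hn)

theorem os_mul_mem (hN : N ≤ Subgroup.normalizer (X : Set G)) (hc : Bx X c) {d : G → F}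
    (hd : d ∈ cset N c) : mulF (os N c) d = d := by
  have := Fintype.ofFinite (cset N c)
  rw [os_eq, T2.H25.sum_mulF, Finset.sum_eq_single (⟨d, hd⟩ : cset N c)]
  · exact (bx_mem hN hc hd).mul
  · intro e _ he
    rcases (bx_mem hN hc e.2).dich (bx_mem hN hc hd) with h | h
    · exact absurd (Subtype.ext h) he
    · exact h
  · intro h
    exact absurd (Finset.mem_univ _) h

theorem os_mul_os (hN : N ≤ Subgroup.normalizer (X : Set G)) (hc : Bx X c) :
    mulF (os N c) (os N c) = os N c := by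
  have := Fintype.ofFinite (cset N c)
  conv_lhs => rw [os_eq N c, T2.H25.mulF_sum]
  rw [os_eq N c]
  refine Finset.sum_congr rfl fun d _ => ?_
  rw [← os_eq N c]
  exact os_mul_mem hN hc d.2

theorem os_supp (hN : N ≤ Subgroup.normalizer (X : Set G)) (hc : Bx X c) :
    ∀ x, x ∉ X → os N c x = 0 := by
  intro x hx
  unfold os
  exact finsum_eq_zero_of_forall_eq_zero fun d => (bx_mem hN hc d.2).supp x hx

theorem os_ix (hN : N ≤ Subgroup.normalizer (X : Set G)) (hc : Bx X c) : Ix X (os N c) := by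
  refine mk_ix (os_supp hN hc) ?_ (os_mul_os hN hc)
  intro x hx
  have := Fintype.ofFinite (cset N c)
  rw [os_eq, T2.H25.cj_sum]
  refine Finset.sum_congr rfl fun d _ => ?_
  exact (bx_mem hN hc d.2).ix.inv hx

/-- if the orbit sum does not vanish on `C(R)` then there is an `R`-invariant conjugate which does
not vanish on `C(R)` -/
theorem os_fixed {ℓ : ℕ} (hF : GoodF ℓ F) {R : Subgroup G} (hR : IsPGroup ℓ R) (hRN : R ≤ N)
    {g : G} (hg : g ∈ Subgroup.centralizer (R : Set G)) (h : os N c g ≠ 0) :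
    ∃ d ∈ cset N c, (∀ r ∈ R, cj r d = d) ∧ d g ≠ 0 := by
  let _ : MulAction R (cset N c) :=
    { smul := fun r d => ⟨cj (r : G) d.1, cj_mem d.2 (hRN r.2)⟩
      one_smul := fun d => Subtype.ext (cj_one d.1)
      mul_smul := fun r s d => Subtype.ext (cj_cj (r : G) (s : G) d.1).symm }
  have h1 := H74.orb ℓ F F R (cset N c) hF.prime hF.char hR (fun d => d.1 g) (by
    intro r d
    change d.1 ((r : G)⁻¹ * g * r) = d.1 g
    congr 1
    have h2 := Subgroup.mem_centralizer_iff.1 hg r r.2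
    rw [mul_assoc, ← h2, inv_mul_cancel_left])
  by_contra hcon
  apply h
  refine h1.trans ?_
  apply finsum_eq_zero_of_forall_eq_zero
  intro d
  classical
  rw [finsum_eq_if]
  by_cases hd : d ∈ MulAction.fixedPoints R (cset N c)
  · rw [if_pos hd]
    by_contra hdg
    exact hcon ⟨d.1, d.2, fun r hr => congrArg Subtype.val (hd ⟨r, hr⟩), hdg⟩
  · rw [if_neg hd]

theorem os_self (h : ∀ n ∈ N, cj n c = c) : os N c = c := by
  funext g
  unfold os
  rw [finsum_eq_single _ (⟨c, self_mem N c⟩ : cset N c)]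
  rintro ⟨d, n, hn, rfl⟩ hd
  exact absurd (Subtype.ext (h n hn)) hd

end bx

end tools

end Pool.Agent.PP.T10.H17
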