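import Pool.Agent.Helper17_AT10.Orb
import Pool.Agent.Helper25_AT8.IDP

/-!
# Squad AT10, row UNB: a primitive idempotent defines a compatible function (author helper17)
-/

open scoped BigOperators

noncomputable section

namespace Pool.Agent.PP.T10.H17

open Pool.Agent.Helper51_AWC Pool.Agent.Helper79_WRA Pool.Agent.PP Pool.Agent.PP.KF
open Pool.Agent.PP.K9 Pool.Agent.PP.K9.H97 Pool.Agent.PP.H75 Pool.Agent.PP.T3 Pool.Agent.PP.T2
open Pool.Agent.PP.T8 (rs pw fv rd Ip Rv)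

section unb

variable {F G : Type} [Field F] [Group G] [Finite G] {ℓ : ℕ} [hfact : Fact ℓ.Prime]

omit hfact in
theorem cj_pw (q : G) (x : G → F) (hx : cj q x = x) (n : ℕ) : cj q (pw x n) = pw x n := by
  induction n with
  | zero =>
    rw [T8.H25.pw_zero]
    exact cj_dl_one q
  | succ n ih => rw [T8.H25.pw_succ, cj_mulF, hx, ih]

omit hfact in
/-- powers of an element with an idempotent image -/
theorem br_pw (hF : GoodF ℓ F) {Q : Subgroup G} (hQ : IsPGroup ℓ Q) {x : G → F}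
    (hx : ∀ q ∈ Q, cj q x = x) (hid : mulF (br Q x) (br Q x) = br Q x) :
    ∀ n : ℕ, br Q (pw x (n + 1)) = br Q x := by
  intro n
  induction n with
  | zero => rw [T8.H25.pw_succ, T8.H25.pw_zero, mulF_one]
  | succ n ih =>
    rw [T8.H25.pw_succ, br_mulF H74.orb hF hQ hx (fun q hq => cj_pw q x (hx q hq) _), ih, hid]

omit hfact in
/-- an element of `i A ^ P i` whose image at `Q` is an idempotent which is not zero is
invertible -/
theorem unit_of (idl : IdlStmt) (hF : GoodF ℓ F) {P : Subgroup G} (hP : IsPGroup ℓ P)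
    {i : G → F} (hi : Pm P i) {Q : Subgroup G} (hQP : Q ≤ P) {x : G → F}
    (hx : ∀ v ∈ P, cj v x = x) (h1 : mulF i x = x) (h2 : mulF x i = x)
    (hid : mulF (br Q x) (br Q x) = br Q x) (hne : br Q x ≠ 0) :
    ∃ w : G → F, (∀ v ∈ P, cj v w = w) ∧ mulF x w = i := by
  rcases idl ℓ F hF G P i hi x (fun v hv => (cj_eq_iff v x).1 (hx v hv)) h1 h2 with h | h
  · exfalso
    obtain ⟨n, hn, h3⟩ := h
    obtain ⟨m, rfl⟩ : ∃ m, n = m + 1 := ⟨n - 1, by omega⟩
    apply hne
    rw [← br_pw hF (hP.to_le hQP) (fun q hq => hx q (hQP hq)) hid m, h3, T2.H32.br_zero]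
  · obtain ⟨w, hw, -, -, h3, -⟩ := h
    exact ⟨w, fun v hv => (cj_eq_iff v w).2 (hw v hv), h3⟩

/-- the statement of the induction -/
def Tt (i : G → F) (Q : Subgroup G) (c : G → F) : Prop :=
  Bx (Subgroup.centralizer (Q : Set G)) c ∧ mulF (br Q i) c = br Q i

section fixed

variable {P : Subgroup G} {i : G → F}

omit hfact in
theorem br_i_mul (hF : GoodF ℓ F) (hP : IsPGroup ℓ P) (hi : Pm P i) {Q : Subgroup G}
    (hQP : Q ≤ P) : mulF (br Q i) (br Q i) = br Q i := by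
  have hcj : ∀ v ∈ Q, cj v i = i := fun v hv => (cj_eq_iff v i).2 (hi.iv v (hQP hv))
  rw [← br_mulF H74.orb hF (hP.to_le hQP) hcj hcj, hi.id]

omit [Finite G] hfact in
theorem br_i_ne (hbr : br P i ≠ 0) {Q : Subgroup G} (hQP : Q ≤ P) : br Q i ≠ 0 := by
  intro h
  apply hbr
  rw [← T2.H25.br_br hQP, h, T2.H32.br_zero]

omit hfact in
theorem cj_br_i (hi : Pm P i) {Q : Subgroup G} {s : G} (hs : s ∈ P)
    (hsQ : s ∈ Subgroup.normalizer (Q : Set G)) : cj s (br Q i) = br Q i := by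
  rw [cj_br hsQ, (cj_eq_iff s i).2 (hi.iv s hs)]

omit hfact in
/-- a block commutes with `br Q i` -/
theorem comm_br {Q : Subgroup G} {c : G → F}
    (hc : Ix (Subgroup.centralizer (Q : Set G)) c) (a : G → F) :
    mulF (br Q a) c = mulF c (br Q a) :=
  mulF_comm_of (K := Subgroup.centralizer (Q : Set G)) (fun _ hx => br_out _ hx)
    (fun _ hk => hc.inv hk)

omit hfact in
/-- compatibility -/
theorem compat (hF : GoodF ℓ F) (hP : IsPGroup ℓ P) (hi : Pm P i) (hbr : br P i ≠ 0)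
    {S S' : Subgroup G} (hSS : S ≤ S') (hSP : S' ≤ P)
    (hN : S' ≤ Subgroup.normalizer (S : Set G)) {b b' : G → F} (hb : Tt i S b)
    (hb' : Tt i S' b') : (∀ s ∈ S', cj s b = b) ∧ mulF (br S' b) b' = b' := by
  have hne := br_i_ne hbr (hSS.trans hSP)
  have hne' := br_i_ne hbr hSP
  have hinv : ∀ s ∈ S', cj s b = b := by
    intro s hs
    have h1 : Bx (Subgroup.centralizer (S : Set G)) (cj s b) := hb.1.cj (norm_cent (hN hs))
    have h2 : mulF (br S i) (cj s b) = br S i := by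
      have h3 := congrArg (cj s) hb.2
      rw [cj_mulF, cj_br_i hi (hSP hs) (hN hs)] at h3
      exact h3
    exact bx_uniq hne h1 hb.1 h2 hb.2
  refine ⟨hinv, ?_⟩
  have hSp : IsPGroup ℓ S' := hP.to_le hSP
  have hix := ix_br' hF hSp hSS hb.1.ix hinv
  have h1 : mulF (br S' i) (br S' b) = br S' i := by
    have h2 : ∀ s ∈ S', cj s (br S i) = br S i := fun s hs => cj_br_i hi (hSP hs) (hN hs)
    have h3 := br_mulF H74.orb hF hSp h2 hinv
    rw [hb.2, T2.H25.br_br hSS] at h3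
    exact h3.symm
  rcases hb'.1.dich' hix with h | h
  · rw [← hb'.1.ix.comm hix, h]
  · exfalso
    apply hne'
    rw [← h1]
    conv_lhs => rw [← hb'.2]
    rw [mulF_assoc, h, mulF_zero_right]

/-! ## The group itself -/

theorem top_case (idl : IdlStmt) (hF : GoodF ℓ F) (hP : IsPGroup ℓ P) (hi : Pm P i)
    (hbr : br P i ≠ 0) : ∃ c, Tt i P c := by
  obtain ⟨c, hc, hne⟩ := exists_bx_one (Subgroup.centralizer (P : Set G)) hbr
  have hci : ∀ v ∈ P, cj v i = i := fun v hv => (cj_eq_iff v i).2 (hi.iv v hv)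
  have hcc : ∀ v ∈ P, cj v c = c := by
    intro v hv
    rw [cj_eq_iff]
    intro x
    have hvn : v ∈ Subgroup.normalizer (P : Set G) := Subgroup.le_normalizer hv
    by_cases hx : x ∈ Subgroup.centralizer (P : Set G)
    · have h1 := Subgroup.mem_centralizer_iff.1 hx v hv
      rw [h1, mul_inv_cancel_right]
    · rw [hc.supp x hx, hc.supp]
      intro h
      exact hx ((Subgroup.mem_normalizer_iff.1 (norm_cent hvn) x).2 h)
  have hbc : br P c = c := by
    funext x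
    by_cases hx : x ∈ Subgroup.centralizer (P : Set G)
    · rw [br_in _ hx]
    · rw [br_out _ hx, hc.supp x hx]
  have hcomm := comm_br hc.ix i
  have hii := br_i_mul hF hP hi le_rfl
  have hy0 : ∀ v ∈ P, cj v (mulF c i) = mulF c i := by
    intro v hv
    rw [cj_mulF, hcc v hv, hci v hv]
  have hy : ∀ v ∈ P, cj v (mulF i (mulF c i)) = mulF i (mulF c i) := by
    intro v hv
    rw [cj_mulF, hy0 v hv, hci v hv]
  have hbry : br P (mulF i (mulF c i)) = mulF c (br P i) := by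
    rw [br_mulF H74.orb hF hP hci hy0, br_mulF H74.orb hF hP hcc hci, hbc, ← mulF_assoc, hcomm,
      mulF_assoc, hii]
  obtain ⟨w, hw, hxw⟩ := unit_of idl hF hP hi le_rfl hy
    (by rw [← mulF_assoc, hi.id])
    (by rw [mulF_assoc, mulF_assoc, hi.id])
    (by
      rw [hbry, mulF_assoc, ← mulF_assoc (br P i) c, hcomm, mulF_assoc, hii, ← mulF_assoc,
        hc.mul])
    (by
      rw [hbry]
      exact hne)
  refine ⟨c, hc, ?_⟩
  have h3 : br P i = mulF c (mulF (br P i) (br P w)) := by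
    have h4 := congrArg (br P) hxw
    rw [br_mulF H74.orb hF hP hy hw, hbry, mulF_assoc] at h4
    exact h4.symm
  rw [hcomm]
  conv_lhs => rw [h3, ← mulF_assoc, hc.mul, ← h3]

/-! ## The trace of an element with small stabilisers -/

open Classical in
/-- the function `t` -/
def tf (P : Subgroup G) (Y : G → F) : G → F := fun g =>
  if h : ∃ v ∈ P, Y (v⁻¹ * g * v) ≠ 0 then Y (h.choose⁻¹ * g * h.choose) else 0

section trace

variable {Q : Subgroup G} {Y : G → F}

/-- the conditions on `Y` -/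
structure Cy (P Q : Subgroup G) (Y : G → F) : Prop where
  le : Q ≤ P
  supp : ∀ g, g ∉ Subgroup.centralizer (Q : Set G) → Y g = 0
  inv : ∀ s ∈ P, s ∈ Subgroup.normalizer (Q : Set G) → ∀ g, Y (s * g * s⁻¹) = Y g
  stab : ∀ g, Y g ≠ 0 → ∀ p ∈ P, p * g = g * p → p ∈ Q

omit hfact [Finite G] in
theorem Cy.norm (h : Cy P Q Y) {g u : G} (hu : u ∈ P) (h1 : Y g ≠ 0)
    (h2 : Y (u * g * u⁻¹) ≠ 0) : u ∈ Subgroup.normalizer (Q : Set G) := by
  have hg : g ∈ Subgroup.centralizer (Q : Set G) := by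
    by_contra hg
    exact h1 (h.supp g hg)
  have hg2 : u * g * u⁻¹ ∈ Subgroup.centralizer (Q : Set G) := by
    by_contra hg
    exact h2 (h.supp _ hg)
  rw [Subgroup.mem_normalizer_iff]
  intro q
  constructor
  · intro hq
    apply h.stab _ h2 _ (P.mul_mem (P.mul_mem hu (h.le hq)) (P.inv_mem hu))
    have h3 := Subgroup.mem_centralizer_iff.1 hg q hq
    calc u * q * u⁻¹ * (u * g * u⁻¹) = u * (q * g) * u⁻¹ := by group
      _ = u * (g * q) * u⁻¹ := by rw [h3]
      _ = u * g * u⁻¹ * (u * q * u⁻¹) := by group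
  · intro hq
    have hqP : q ∈ P := by
      have h4 := P.mul_mem (P.mul_mem (P.inv_mem hu) (h.le hq)) hu
      have h5 : u⁻¹ * (u * q * u⁻¹) * u = q := by group
      rwa [h5] at h4
    apply h.stab g h1 q hqP
    have h3 := Subgroup.mem_centralizer_iff.1 hg2 _ hq
    have h4 : u * (q * g) * u⁻¹ = u * (g * q) * u⁻¹ := by
      calc u * (q * g) * u⁻¹ = u * q * u⁻¹ * (u * g * u⁻¹) := by group
        _ = u * g * u⁻¹ * (u * q * u⁻¹) := h3
        _ = u * (g * q) * u⁻¹ := by group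
    exact mul_left_cancel (mul_right_cancel h4)

omit hfact [Finite G] in
theorem Cy.tf_eq (h : Cy P Q Y) {g v : G} (hv : v ∈ P) (h1 : Y (v⁻¹ * g * v) ≠ 0) :
    tf P Y g = Y (v⁻¹ * g * v) := by
  have hex : ∃ v ∈ P, Y (v⁻¹ * g * v) ≠ 0 := ⟨v, hv, h1⟩
  unfold tf
  rw [dif_pos hex]
  obtain ⟨hw, hw1⟩ := hex.choose_spec
  set w := hex.choose with hwdef
  have hu : w⁻¹ * v ∈ P := P.mul_mem (P.inv_mem hw) hv
  have h2 : w⁻¹ * v * (v⁻¹ * g * v) * (w⁻¹ * v)⁻¹ = w⁻¹ * g * w := by group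
  have h3 : w⁻¹ * v ∈ Subgroup.normalizer (Q : Set G) :=
    h.norm hu h1 (by rw [h2]; exact hw1)
  have h4 := h.inv _ hu h3 (v⁻¹ * g * v)
  rw [h2] at h4
  exact h4

omit hfact [Finite G] in
theorem tf_zero {g : G} (h : ¬ ∃ v ∈ P, Y (v⁻¹ * g * v) ≠ 0) : tf P Y g = 0 := by
  unfold tf
  rw [dif_neg h]

omit hfact in
theorem Cy.tf_inv (h : Cy P Q Y) : ∀ p ∈ P, cj p (tf P Y) = tf P Y := by
  intro p hp
  rw [cj_eq_iff]
  intro g
  by_cases hex : ∃ v ∈ P, Y (v⁻¹ * g * v) ≠ 0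
  · obtain ⟨v, hv, h1⟩ := hex
    have h2 : (p * v)⁻¹ * (p * g * p⁻¹) * (p * v) = v⁻¹ * g * v := by group
    rw [h.tf_eq hv h1, h.tf_eq (v := p * v) (P.mul_mem hp hv) (by rw [h2]; exact h1), h2]
  · rw [tf_zero hex, tf_zero]
    rintro ⟨v, hv, h1⟩
    apply hex
    refine ⟨p⁻¹ * v, P.mul_mem (P.inv_mem hp) hv, ?_⟩
    have h2 : (p⁻¹ * v)⁻¹ * g * (p⁻¹ * v) = v⁻¹ * (p * g * p⁻¹) * v := by group
    rw [h2]
    exact h1

omit hfact in
theorem Cy.br_tf (h : Cy P Q Y) : br Q (tf P Y) = Y := by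
  funext g
  by_cases hg : g ∈ Subgroup.centralizer (Q : Set G)
  · rw [br_in _ hg]
    by_cases hex : ∃ v ∈ P, Y (v⁻¹ * g * v) ≠ 0
    · obtain ⟨v, hv, h1⟩ := hex
      rw [h.tf_eq hv h1]
      have h3 : v⁻¹ ∈ Subgroup.normalizer (Q : Set G) := by
        apply Subgroup.mem_normalizer_fintype
        intro q hq
        rw [inv_inv]
        apply h.stab _ h1 _ (P.mul_mem (P.mul_mem (P.inv_mem hv) (h.le hq)) hv)
        have h4 := Subgroup.mem_centralizer_iff.1 hg q hq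
        calc v⁻¹ * q * v * (v⁻¹ * g * v) = v⁻¹ * (q * g) * v := by group
          _ = v⁻¹ * (g * q) * v := by rw [h4]
          _ = v⁻¹ * g * v * (v⁻¹ * q * v) := by group
      have h4 := h.inv _ (P.inv_mem hv) h3 g
      rw [inv_inv] at h4
      exact h4
    · rw [tf_zero hex]
      by_contra hne
      apply hex
      refine ⟨1, P.one_mem, ?_⟩
      rw [inv_one, one_mul, mul_one]
      exact fun h' => hne h'.symm
  · rw [br_out _ hg, h.supp g hg]

omit hfact in
theorem Cy.br_tf_top (h : Cy P Q Y) (hlt : Q < P) : br P (tf P Y) = 0 := by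
  funext g
  by_cases hg : g ∈ Subgroup.centralizer (P : Set G)
  · rw [br_in _ hg, tf_zero]
    · rfl
    rintro ⟨v, hv, h1⟩
    have h2 : v⁻¹ * g * v = g := by
      have h3 := Subgroup.mem_centralizer_iff.1 hg v hv
      rw [mul_assoc, ← h3, inv_mul_cancel_left]
    rw [h2] at h1
    apply not_le_of_gt hlt
    intro p hp
    exact h.stab g h1 p hp (Subgroup.mem_centralizer_iff.1 hg p hp)
  · rw [br_out _ hg]
    rfl

end trace

/-! ## The induction step -/

/-- Claim A -/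
theorem claimA (idl : IdlStmt) (hF : GoodF ℓ F) (hP : IsPGroup ℓ P) (hi : Pm P i)
    (hbr : br P i ≠ 0) {Q : Subgroup G} (hQP : Q < P) {c' : G → F}
    (hc' : Ix (Subgroup.centralizer (Q : Set G)) c')
    (hinv : ∀ s ∈ P ⊓ Subgroup.normalizer (Q : Set G), cj s c' = c')
    (hne : mulF c' (br Q i) ≠ 0) : ∃ S : Subgroup G, Q < S ∧
      S ≤ P ⊓ Subgroup.normalizer (Q : Set G) ∧ br S (mulF c' (br Q i)) ≠ 0 := by
  by_contra hcon
  have hS : ∀ S : Subgroup G, Q < S → S ≤ P ⊓ Subgroup.normalizer (Q : Set G) →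
      br S (mulF c' (br Q i)) = 0 := by
    intro S h1 h2
    by_contra h3
    exact hcon ⟨S, h1, h2, h3⟩
  clear hcon
  set Y : G → F := mulF c' (br Q i) with hYdef
  have hcomm := comm_br hc' i
  have hii := br_i_mul hF hP hi hQP.le
  have hYI : mulF Y (br Q i) = Y := by rw [hYdef, mulF_assoc, hii]
  have hIY : mulF (br Q i) Y = Y := by rw [hYdef, ← mulF_assoc, hcomm, mulF_assoc, hii]
  have hYY : mulF Y Y = Y := by
    conv_lhs => rw [hYdef, mulF_assoc, ← hYdef, hIY]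
    rw [hYdef, ← mulF_assoc, hc'.mul]
  have hYs : ∀ g, g ∉ Subgroup.centralizer (Q : Set G) → Y g = 0 :=
    mulF_supp _ hc'.supp (fun x hx => br_out _ hx)
  have hYi : ∀ s ∈ P, s ∈ Subgroup.normalizer (Q : Set G) → cj s Y = Y := by
    intro s hs hsN
    rw [hYdef, cj_mulF, hinv s (Subgroup.mem_inf.2 ⟨hs, hsN⟩), cj_br_i hi hs hsN]
  have hcy : Cy P Q Y := by
    refine ⟨hQP.le, hYs, fun s hs hsN => (cj_eq_iff s Y).1 (hYi s hs hsN), ?_⟩
    intro g hg p hp hpg
    have hgQ : g ∈ Subgroup.centralizer (Q : Set G) := by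
      by_contra h
      exact hg (hYs g h)
    set D : Subgroup G := P ⊓ Subgroup.centralizer ({g} : Set G) with hD
    have hQD : Q ≤ D := by
      refine le_inf hQP.le ?_
      intro q hq
      rw [Subgroup.mem_centralizer_iff]
      intro x hx
      rw [Set.mem_singleton_iff.1 hx]
      exact (Subgroup.mem_centralizer_iff.1 hgQ q hq).symm
    have hpD : p ∈ D := by
      refine Subgroup.mem_inf.2 ⟨hp, ?_⟩
      rw [Subgroup.mem_centralizer_iff]
      intro x hx
      rw [Set.mem_singleton_iff.1 hx]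
      exact hpg.symm
    by_contra hpQ
    have hlt : Q < D := lt_of_le_of_ne hQD (fun h => hpQ (h ▸ hpD))
    have hgr := grow' (hP.to_le (inf_le_left : D ≤ P)) hlt
    have h0 := hS _ hgr (inf_le_inf_right _ inf_le_left)
    apply hg
    have hgS : g ∈ Subgroup.centralizer
        ((D ⊓ Subgroup.normalizer (Q : Set G) : Subgroup G) : Set G) := by
      rw [Subgroup.mem_centralizer_iff]
      intro x hx
      have h1 : x ∈ Subgroup.centralizer ({g} : Set G) :=
        (Subgroup.mem_inf.1 (Subgroup.mem_inf.1 hx).1).2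
      exact (Subgroup.mem_centralizer_iff.1 h1 g (Set.mem_singleton g)).symm
    rw [← br_in (P := D ⊓ Subgroup.normalizer (Q : Set G)) Y hgS, h0]
    rfl
  have ht := hcy.tf_inv
  have hci : ∀ v ∈ P, cj v i = i := fun v hv => (cj_eq_iff v i).2 (hi.iv v hv)
  set t := tf P Y with htdef
  have hti : ∀ v ∈ P, cj v (mulF t i) = mulF t i := by
    intro v hv
    rw [cj_mulF, ht v hv, hci v hv]
  have hz : ∀ v ∈ P, cj v (mulF i (mulF t i)) = mulF i (mulF t i) := by
    intro v hv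
    rw [cj_mulF, hti v hv, hci v hv]
  have hQp : IsPGroup ℓ Q := hP.to_le hQP.le
  have hbz : br Q (mulF i (mulF t i)) = Y := by
    rw [br_mulF H74.orb hF hQp (fun v hv => hci v (hQP.le hv)) (fun v hv => hti v (hQP.le hv)),
      br_mulF H74.orb hF hQp (fun v hv => ht v (hQP.le hv)) (fun v hv => hci v (hQP.le hv)),
      hcy.br_tf, hYI, hIY]
  obtain ⟨w, hw, hxw⟩ := unit_of idl hF hP hi hQP.le hz
    (by rw [← mulF_assoc, hi.id])
    (by rw [mulF_assoc, mulF_assoc, hi.id])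
    (by rw [hbz, hYY])
    (by rw [hbz]; exact hne)
  apply hbr
  rw [← hxw, br_mulF H74.orb hF hP hz hw, br_mulF H74.orb hF hP hci hti,
    br_mulF H74.orb hF hP ht hci, hcy.br_tf_top hQP, mulF_zero_left, mulF_zero_right,
    mulF_zero_left]

/-- the start of Claim B -/
theorem claimB0 (hF : GoodF ℓ F) (hP : IsPGroup ℓ P) (hi : Pm P i)
    (hbr : br P i ≠ 0) {Q S : Subgroup G} (hQS : Q ≤ S) (hSP : S ≤ P)
    (hSN : S ≤ Subgroup.normalizer (Q : Set G)) {c' : G → F}
    (hc' : Ix (Subgroup.centralizer (Q : Set G)) c') (hinv : ∀ s ∈ S, cj s c' = c')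
    (hne : br S (mulF c' (br Q i)) ≠ 0) {b : G → F} (hb : Tt i S b) :
    mulF (br S c') b = b := by
  have hSp := hP.to_le hSP
  have hix := ix_br' hF hSp hQS hc' hinv
  have h1 : br S (mulF c' (br Q i)) = mulF (br S c') (br S i) := by
    rw [br_mulF H74.orb hF hSp hinv (fun s hs => cj_br_i hi (hSP hs) (hSN hs)),
      T2.H25.br_br hQS]
  rcases hb.1.dich' hix with h | h
  · rw [hix.comm hb.1.ix, h]
  · exfalso
    apply hne
    rw [h1, ← comm_br hix i]
    conv_lhs => rw [← hb.2]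
    rw [mulF_assoc, h, mulF_zero_right]

/-- Claim B: going up -/
theorem climb (hF : GoodF ℓ F) (hP : IsPGroup ℓ P) (hi : Pm P i) (hbr : br P i ≠ 0)
    {Q R : Subgroup G} (hRP : R ≤ P) {c' : G → F}
    (hinv : ∀ s ∈ R, cj s c' = c')
    (ih : ∀ S, Q < S → S ≤ P → ∃ c, Tt i S c) {b₀ : G → F} (hb₀ : Tt i R b₀) :
    ∀ S : Subgroup G, Q < S → S ≤ R → (∃ b, Tt i S b ∧ mulF (br S c') b = b) →
      mulF (br R c') b₀ = b₀ := by
  intro S
  induction S using WellFoundedGT.induction with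
  | ind S ihS =>
    intro hQS hSR hex
    obtain ⟨b, hb, hcb⟩ := hex
    rcases eq_or_lt_of_le hSR with h | h
    · have h1 : b = b₀ := by
        rw [h] at hb
        exact bx_uniq (br_i_ne hbr hRP) hb.1 hb₀.1 hb.2 hb₀.2
      rw [← h1, ← h]
      exact hcb
    · have hgr := grow' (hP.to_le hRP) h
      set S' : Subgroup G := R ⊓ Subgroup.normalizer (S : Set G) with hS'
      have hS'R : S' ≤ R := inf_le_left
      have hS'N : S' ≤ Subgroup.normalizer (S : Set G) := inf_le_right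
      obtain ⟨b', hb'⟩ := ih S' (hQS.trans hgr) (hS'R.trans hRP)
      have hcp := compat hF hP hi hbr hgr.le (hS'R.trans hRP) hS'N hb hb'
      refine ihS S' hgr (hQS.trans hgr) hS'R ⟨b', hb', ?_⟩
      have hS'p := hP.to_le (hS'R.trans hRP)
      have h1 : ∀ s ∈ S', cj s (br S c') = br S c' := by
        intro s hs
        rw [cj_br (hS'N hs), hinv s (hS'R hs)]
      have h2 := br_mulF H74.orb hF hS'p h1 hcp.1
      rw [hcb, T2.H25.br_br hgr.le] at h2
      conv_lhs => rw [← hcp.2, ← mulF_assoc, ← h2, hcp.2]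

/-- a block which does not annihilate `br Q i` is invariant, and its image is over the block of
the normaliser -/
theorem step1 (idl : IdlStmt) (hF : GoodF ℓ F) (hP : IsPGroup ℓ P) (hi : Pm P i)
    (hbr : br P i ≠ 0) {Q : Subgroup G} (hQP : Q < P)
    (ih : ∀ S, Q < S → S ≤ P → ∃ c, Tt i S c) {b₀ : G → F}
    (hb₀ : Tt i (P ⊓ Subgroup.normalizer (Q : Set G)) b₀) {c : G → F}
    (hc : Bx (Subgroup.centralizer (Q : Set G)) c) (hne : mulF c (br Q i) ≠ 0) :
    (∀ s ∈ P ⊓ Subgroup.normalizer (Q : Set G), cj s c = c) ∧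
      mulF (br (P ⊓ Subgroup.normalizer (Q : Set G)) c) b₀ = b₀ := by
  set R : Subgroup G := P ⊓ Subgroup.normalizer (Q : Set G) with hR
  have hRP : R ≤ P := inf_le_left
  have hRN : R ≤ Subgroup.normalizer (Q : Set G) := inf_le_right
  have hRC : R ≤ Subgroup.normalizer
      ((Subgroup.centralizer (Q : Set G) : Subgroup G) : Set G) := fun s hs => norm_cent (hRN hs)
  have hix := os_ix hRC hc
  have hinv : ∀ s ∈ R, cj s (os R c) = os R c := fun s hs => cj_os hs c
  have hcc := os_mul_mem hRC hc (self_mem R c)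
  have hne' : mulF (os R c) (br Q i) ≠ 0 := by
    intro h
    apply hne
    rw [← hcc, hix.comm hc.ix, mulF_assoc, h, mulF_zero_right]
  obtain ⟨S, hQS, hSR, hS⟩ := claimA idl hF hP hi hbr hQP hix hinv hne'
  obtain ⟨b, hb⟩ := ih S hQS (hSR.trans hRP)
  have h1 := claimB0 hF hP hi hbr hQS.le (hSR.trans hRP) (hSR.trans hRN) hix
    (fun s hs => hinv s (hSR hs)) hS hb
  have h2 := climb hF hP hi hbr hRP hinv ih hb₀ S hQS hSR ⟨b, hb, h1⟩
  have h3 : br R (os R c) ≠ 0 := by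
    intro h
    rw [h, mulF_zero_left] at h2
    exact hb₀.1.ne h2.symm
  have h4 : ∃ g ∈ Subgroup.centralizer (R : Set G), os R c g ≠ 0 := by
    by_contra hcon
    apply h3
    funext g
    by_cases hg : g ∈ Subgroup.centralizer (R : Set G)
    · rw [br_in _ hg]
      by_contra h
      exact hcon ⟨g, hg, h⟩
    · rw [br_out _ hg]
      rfl
  obtain ⟨g, hg, hgne⟩ := h4
  obtain ⟨d, ⟨n, hn, hd⟩, hdinv, -⟩ := os_fixed hF (hP.to_le hRP) le_rfl hg hgne
  have h5 : c = d := by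
    have h6 := hdinv n⁻¹ (R.inv_mem hn)
    rw [hd, cj_inv_cj] at h6
    rw [hd]
    exact h6
  have h6 : ∀ s ∈ R, cj s c = c := by
    rw [h5]
    exact hdinv
  refine ⟨h6, ?_⟩
  rw [os_self h6] at h2
  exact h2

theorem step (idl : IdlStmt) (hF : GoodF ℓ F) (hP : IsPGroup ℓ P) (hi : Pm P i)
    (hbr : br P i ≠ 0) {Q : Subgroup G} (hQP : Q < P)
    (ih : ∀ S, Q < S → S ≤ P → ∃ c, Tt i S c) : ∃ c, Tt i Q c := by
  obtain ⟨b₀, hb₀⟩ := ih _ (grow' hP hQP) inf_le_left
  obtain ⟨c, hc, hne⟩ := exists_bx_one (Subgroup.centralizer (Q : Set G)) (br_i_ne hbr hQP.le)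
  obtain ⟨h1, h2⟩ := step1 idl hF hP hi hbr hQP ih hb₀ hc hne
  refine ⟨c, hc, ?_⟩
  rw [comm_br hc.ix]
  apply all_of_unique hc
  intro d hd hdne
  obtain ⟨h3, h4⟩ := step1 idl hF hP hi hbr hQP ih hb₀ hd hdne
  rcases hd.dich hc with h | h
  · exact h
  · exfalso
    have h5 := br_mulF H74.orb hF (hP.to_le inf_le_left) h3 h1
    rw [h, T2.H32.br_zero] at h5
    apply hb₀.1.ne
    rw [← h4]
    conv_lhs => rw [← h2]
    rw [← mulF_assoc, ← h5, mulF_zero_left]

theorem key (idl : IdlStmt) (hF : GoodF ℓ F) (hP : IsPGroup ℓ P) (hi : Pm P i)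
    (hbr : br P i ≠ 0) : ∀ Q : Subgroup G, Q ≤ P → ∃ c, Tt i Q c := by
  intro Q
  induction Q using WellFoundedGT.induction with
  | ind Q ih =>
    intro hQ
    rcases eq_or_lt_of_le hQ with h | h
    · rw [h]
      exact top_case idl hF hP hi hbr
    · exact step idl hF hP hi hbr h (fun S h1 h2 => ih S h1 h2)

end fixed

end unb

/-- UNB -/
theorem unb (idl : IdlStmt) : UnbStmt := by
  intro ℓ _ F _ hF G _ _ P hP i hi hbr
  have h := key idl hF hP hi hbr
  choose! β hβ using h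
  refine ⟨β, ⟨fun Q hQ => (hβ Q hQ).1, ?_, ?_⟩, fun Q hQ => (hβ Q hQ).2⟩
  · intro Q S hQS hSP hSN
    exact (compat hF hP hi hbr hQS hSP hSN (hβ Q (hQS.trans hSP)) (hβ S hSP)).1
  · intro Q S hQS hSP hSN
    exact (compat hF hP hi hbr hQS hSP hSN (hβ Q (hQS.trans hSP)) (hβ S hSP)).2

end Pool.Agent.PP.T10.H17
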